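import Pool.Agent.Helper32.Cotype.Defs

/-! R2 of the disproof of finite cotype (MP_f9ce33_an): multiplicativity of the
`ℓ_{4/3} → ℓ_4` norm. -/

set_option autoImplicit false

open scoped BigOperators

namespace Pool.Agent.Cotype

section
variable {X Y X' Y' : Type} [Fintype X] [Fintype Y] [Fintype X'] [Fintype Y']

omit [Fintype X] in
/-- Minkowski's inequality in `ℓ_3` for finite sums of nonnegative functions. -/
lemma minkowski3 (v : X → Y → ℝ) (hv : ∀ x y, 0 ≤ v x y) (s : Finset X) :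
    (∑ y, (∑ x ∈ s, v x y) ^ (3 : ℝ)) ^ (1 / (3 : ℝ)) ≤
      ∑ x ∈ s, (∑ y, (v x y) ^ (3 : ℝ)) ^ (1 / (3 : ℝ)) := by
  classical
  induction s using Finset.induction_on with
  | empty =>
    simp
  | insert a s ha ih =>
    rw [Finset.sum_insert ha]
    have h1 : (∑ y, (∑ x ∈ insert a s, v x y) ^ (3 : ℝ)) =
        ∑ y, (v a y + ∑ x ∈ s, v x y) ^ (3 : ℝ) := by
      refine Finset.sum_congr rfl fun y _ => ?_
      rw [Finset.sum_insert ha]
    rw [h1]
    have h2 := Real.Lp_add_le_of_nonneg (Finset.univ : Finset Y) (f := fun y => v a y)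
      (g := fun y => ∑ x ∈ s, v x y) (p := 3) (by norm_num) (fun y _ => hv a y)
      (fun y _ => Finset.sum_nonneg fun x _ => hv x y)
    refine h2.trans ?_
    gcongr

/-- The dual form of `BB`. -/
lemma BB.four {T : X → Y → ℝ} (hT : BB T) (f : X → ℝ) :
    ∑ y, |∑ x, T x y * f x| ^ (4 : ℝ) ≤ (∑ x, |f x| ^ (4/3 : ℝ)) ^ (3 : ℝ) := by
  set h : Y → ℝ := fun y => ∑ x, T x y * f x with hh
  set g : Y → ℝ := fun y => (SignType.sign (h y) : ℝ) * |h y| ^ (3 : ℝ) with hg
  set A : ℝ := ∑ y, |h y| ^ (4 : ℝ) with hA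
  have hA0 : 0 ≤ A := Finset.sum_nonneg fun y _ => by positivity
  set F : ℝ := ∑ x, |f x| ^ (4/3 : ℝ) with hF
  have hF0 : 0 ≤ F := Finset.sum_nonneg fun y _ => by positivity
  have key := hT f g
  have e1 : ∑ x, ∑ y, T x y * (f x * g y) = A := by
    rw [Finset.sum_comm]
    rw [hA]
    refine Finset.sum_congr rfl fun y _ => ?_
    have : ∑ x, T x y * (f x * g y) = h y * g y := by
      rw [hh]; simp only
      rw [Finset.sum_mul]
      refine Finset.sum_congr rfl fun x _ => by ring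
    rw [this, hg]
    simp only
    rw [← mul_assoc, mul_comm (h y), sign_mul_self]
    rw [show (4 : ℝ) = 1 + 3 by norm_num, Real.rpow_add' (abs_nonneg _) (by norm_num), Real.rpow_one]
  have e2 : n43 g = A ^ (3/4 : ℝ) := by
    unfold n43
    congr 1
    refine Finset.sum_congr rfl fun y _ => ?_
    rw [hg]; simp only
    by_cases h0 : h y = 0
    · simp [h0]
    · have : |(SignType.sign (h y) : ℝ) * |h y| ^ (3 : ℝ)| = |h y| ^ (3 : ℝ) := by
        rw [abs_mul, abs_of_nonneg (a := |h y| ^ (3 : ℝ)) (by positivity)]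
        have : |(SignType.sign (h y) : ℝ)| = 1 := by
          rcases lt_or_gt_of_ne h0 with h1 | h1
          · simp [sign_neg h1]
          · simp [sign_pos h1]
        rw [this, one_mul]
      rw [this, ← Real.rpow_mul (abs_nonneg _)]
      norm_num
  rw [e1, e2, abs_of_nonneg hA0] at key
  have e3 : n43 f = F ^ (3/4 : ℝ) := rfl
  rw [e3] at key
  -- A ≤ F^(3/4) * A^(3/4)
  rcases hA0.eq_or_lt with h0 | hpos
  · rw [← h0]; positivity
  · have h4 : A ^ (1/4 : ℝ) ≤ F ^ (3/4 : ℝ) := by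
      have h5 : A = A ^ (1/4 : ℝ) * A ^ (3/4 : ℝ) := by
        rw [← Real.rpow_add hpos]; norm_num
      have h6 : A ^ (1/4 : ℝ) * A ^ (3/4 : ℝ) ≤ F ^ (3/4 : ℝ) * A ^ (3/4 : ℝ) := by
        rw [← h5]; exact key
      exact le_of_mul_le_mul_right h6 (by positivity)
    have h7 : (A ^ (1/4 : ℝ)) ^ (4 : ℝ) ≤ (F ^ (3/4 : ℝ)) ^ (4 : ℝ) :=
      Real.rpow_le_rpow (by positivity) h4 (by norm_num)
    rw [← Real.rpow_mul hA0, ← Real.rpow_mul hF0] at h7
    norm_num at h7
    exact_mod_cast h7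

/-- Converse: the `ℓ_{4/3} → ℓ_4` bound gives `BB`. -/
lemma BB.of_four {T : X → Y → ℝ}
    (hT : ∀ f : X → ℝ, ∑ y, |∑ x, T x y * f x| ^ (4 : ℝ) ≤ (∑ x, |f x| ^ (4/3 : ℝ)) ^ (3 : ℝ)) :
    BB T := by
  intro f g
  have e1 : ∑ x, ∑ y, T x y * (f x * g y) = ∑ y, (∑ x, T x y * f x) * g y := by
    rw [Finset.sum_comm]
    refine Finset.sum_congr rfl fun y _ => ?_
    rw [Finset.sum_mul]
    refine Finset.sum_congr rfl fun x _ => by ring
  rw [e1]
  have h1 : |∑ y, (∑ x, T x y * f x) * g y| ≤ ∑ y, |∑ x, T x y * f x| * |g y| := by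
    refine (Finset.abs_sum_le_sum_abs _ _).trans (le_of_eq ?_)
    refine Finset.sum_congr rfl fun y _ => abs_mul _ _
  refine h1.trans ?_
  have h2 := Real.inner_le_Lp_mul_Lq (Finset.univ : Finset Y) (fun y => |∑ x, T x y * f x|)
    (fun y => |g y|) (p := 4) (q := 4/3) (by constructor <;> norm_num)
  refine h2.trans ?_
  simp only [abs_abs]
  have h3 : (∑ y, |∑ x, T x y * f x| ^ (4 : ℝ)) ^ (1 / (4 : ℝ)) ≤ n43 f := by
    have := Real.rpow_le_rpow (Finset.sum_nonneg fun y _ => by positivity) (hT f)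
      (show (0 : ℝ) ≤ 1 / 4 by norm_num)
    refine this.trans (le_of_eq ?_)
    rw [← Real.rpow_mul (Finset.sum_nonneg fun y _ => by positivity)]
    unfold n43
    norm_num
  have h4 : (∑ y, |g y| ^ (4/3 : ℝ)) ^ (1 / (4/3 : ℝ)) = n43 g := by
    unfold n43
    norm_num
  rw [h4]
  have h5 : 0 ≤ n43 g := by unfold n43; positivity
  gcongr

lemma BB.tensor {T : X → Y → ℝ} {S : X' → Y' → ℝ} (hT : BB T) (hS : BB S) :
    BB (fun (x : X × X') (y : Y × Y') => T x.1 y.1 * S x.2 y.2) := by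
  refine BB.of_four fun f => ?_
  set F : X → Y' → ℝ := fun x y' => ∑ x', S x' y' * f (x, x') with hF
  have e1 : ∀ y : Y × Y', ∑ x : X × X', T x.1 y.1 * S x.2 y.2 * f x =
      ∑ x, T x y.1 * F x y.2 := by
    intro y
    rw [Fintype.sum_prod_type]
    refine Finset.sum_congr rfl fun x _ => ?_
    rw [hF]; simp only
    rw [Finset.mul_sum]
    refine Finset.sum_congr rfl fun x' _ => by ring
  have e2 : ∑ y : Y × Y', |∑ x : X × X', T x.1 y.1 * S x.2 y.2 * f x| ^ (4 : ℝ) =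
      ∑ y', ∑ y, |∑ x, T x y * F x y'| ^ (4 : ℝ) := by
    rw [Fintype.sum_prod_type, Finset.sum_comm]
    refine Finset.sum_congr rfl fun y' _ => Finset.sum_congr rfl fun y _ => ?_
    rw [e1]
  rw [e2]
  have s1 : ∑ y', ∑ y, |∑ x, T x y * F x y'| ^ (4 : ℝ) ≤
      ∑ y', (∑ x, |F x y'| ^ (4/3 : ℝ)) ^ (3 : ℝ) :=
    Finset.sum_le_sum fun y' _ => hT.four _
  refine s1.trans ?_
  have s2 := minkowski3 (fun x y' => |F x y'| ^ (4/3 : ℝ)) (fun x y => by positivity)
    (Finset.univ : Finset X)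
  have s3 : ∀ x, (∑ y', (|F x y'| ^ (4/3 : ℝ)) ^ (3 : ℝ)) ^ (1 / (3 : ℝ)) ≤
      ∑ x', |f (x, x')| ^ (4/3 : ℝ) := by
    intro x
    have h1 : ∑ y', (|F x y'| ^ (4/3 : ℝ)) ^ (3 : ℝ) = ∑ y', |F x y'| ^ (4 : ℝ) := by
      refine Finset.sum_congr rfl fun y' _ => ?_
      rw [← Real.rpow_mul (abs_nonneg _)]; norm_num
    rw [h1]
    have h2 := hS.four (fun x' => f (x, x'))
    have h3 := Real.rpow_le_rpow (Finset.sum_nonneg fun y _ => by positivity) h2
      (show (0 : ℝ) ≤ 1 / 3 by norm_num)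
    refine h3.trans (le_of_eq ?_)
    rw [← Real.rpow_mul (Finset.sum_nonneg fun y _ => by positivity)]
    norm_num
  have s4 : (∑ y', (∑ x, |F x y'| ^ (4/3 : ℝ)) ^ (3 : ℝ)) ^ (1 / (3 : ℝ)) ≤
      ∑ x : X × X', |f x| ^ (4/3 : ℝ) := by
    refine s2.trans ?_
    rw [Fintype.sum_prod_type]
    exact Finset.sum_le_sum fun x _ => s3 x
  have s5 := Real.rpow_le_rpow (by positivity) s4 (show (0 : ℝ) ≤ 3 by norm_num)
  rw [← Real.rpow_mul (Finset.sum_nonneg fun y _ => by positivity)] at s5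
  norm_num at s5
  exact_mod_cast s5

lemma BB.reindex {T : X → Y → ℝ} (hT : BB T) (e : X' ≃ X) (e' : Y' ≃ Y) :
    BB (fun x y => T (e x) (e' y)) := by
  intro f g
  have h := hT (fun x => f (e.symm x)) (fun y => g (e'.symm y))
  have h1 : n43 (fun x => f (e.symm x)) = n43 f := by
    unfold n43
    congr 1
    exact Equiv.sum_comp e.symm (fun x => |f x| ^ (4/3 : ℝ))
  have h2 : n43 (fun x => g (e'.symm x)) = n43 g := by
    unfold n43
    congr 1
    exact Equiv.sum_comp e'.symm (fun x => |g x| ^ (4/3 : ℝ))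
  rw [h1, h2] at h
  have h3 : ∑ x, ∑ y, T x y * (f (e.symm x) * g (e'.symm y)) =
      ∑ x, ∑ y, T (e x) (e' y) * (f x * g y) := by
    rw [← Equiv.sum_comp e]
    refine Finset.sum_congr rfl fun x _ => ?_
    rw [← Equiv.sum_comp e']
    refine Finset.sum_congr rfl fun y _ => ?_
    simp
  rw [h3] at h
  exact h

end

lemma BB_fin {X Y : Type} [Fintype X] [Fintype Y] (n : ℕ) (T : Fin n → X → Y → ℝ)
    (hT : ∀ p, BB (T p)) :
    BB (fun (x : Fin n → X) (y : Fin n → Y) => ∏ p, T p (x p) (y p)) := by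
  induction n with
  | zero =>
    intro f g
    have h1 : ∀ (Z : Type) [Fintype Z] (f : (Fin 0 → Z) → ℝ), n43 f = |f default| := by
      intro Z _ f
      unfold n43
      rw [Fintype.sum_unique, ← Real.rpow_mul (abs_nonneg _)]
      norm_num
    rw [h1, h1]
    simp [abs_mul]
  | succ n ih =>
    have h1 := (hT 0).tensor (ih (fun p => T p.succ) (fun p => hT p.succ))
    have h2 := h1.reindex (Fin.consEquiv (fun _ : Fin (n+1) => X)).symm
      (Fin.consEquiv (fun _ : Fin (n+1) => Y)).symm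
    convert h2 using 3 with x y
    rw [Fin.prod_univ_succ]
    rfl

theorem BB_pi {P X Y : Type} [Fintype P] [DecidableEq P] [Fintype X] [Fintype Y]
    (T : P → X → Y → ℝ) (hT : ∀ p, BB (T p)) :
    BB (fun (x : P → X) (y : P → Y) => ∏ p, T p (x p) (y p)) := by
  classical
  have e := Fintype.equivFin P
  have h := BB_fin (Fintype.card P) (fun i => T (e.symm i)) (fun i => hT _)
  have h2 := h.reindex (Equiv.arrowCongr e (Equiv.refl X)) (Equiv.arrowCongr e (Equiv.refl Y))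
  convert h2 using 3 with x y
  rw [← Equiv.prod_comp e.symm]
  simp

end Pool.Agent.Cotype
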